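import Pool.Agent.Y462.PA.Stm

/-!
Project PA (helper462), part AU2: finite-state automorphisms with unique returns.
-/

set_option autoImplicit false

open Classical

namespace Pool.Agent.Y73.PA

open Pool.Agent.Y462.SS Pool.Agent.Y462.PA

variable {X : Type}

/-! ### words -/

theorem secw_append (g : T X) (v w : List X) : secw g (v ++ w) = secw (secw g v) w := by
  induction v generalizing g with
  | nil => rfl
  | cons x v ih => exact ih (sec g x)

theorem secw_one (v : List X) : secw (1 : T X) v = 1 := by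
  induction v with
  | nil => rfl
  | cons x v ih =>
    show secw (sec 1 x) v = 1
    rw [sec_one]
    exact ih

/-- a return letter -/
noncomputable def lam (d : X) (q : T X) : X :=
  if h : ∃ x, ∃ v, secw q (x :: v) = q then h.choose else d

theorem lam_spec {d : X} {q : T X} (h : ∃ x, ∃ v, secw q (x :: v) = q) :
    ∃ v, secw q (lam d q :: v) = q := by
  unfold lam
  rw [dif_pos h]
  exact h.choose_spec

/-- the next state -/
noncomputable def nx (d : X) (q : T X) : T X := sec q (lam d q)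

/-- uniqueness of return letters -/
def UQ (Q : Set (T X)) : Prop :=
  ∀ q ∈ Q, q ≠ 1 → ∀ (x y : X) (v w : List X), secw q (x :: v) = q → secw q (y :: w) = q → x = y

theorem iter_nx (d : X) (Q : Set (T X)) (hQ : ∀ q ∈ Q, ∀ x, sec q x ∈ Q) (hU : UQ Q) :
    ∀ (u : List X) (p r : T X) (u' : List X), p ∈ Q → p ≠ 1 → secw p u = r → secw r u' = p →
      (nx d)^[u.length] p = r := by
  intro u
  induction u with
  | nil =>
    intro p r u' _ _ h _
    exact h
  | cons x v ih =>
    intro p r u' hp hp1 h1 h2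
    have h3 : secw p (x :: (v ++ u')) = p := by
      have : x :: (v ++ u') = (x :: v) ++ u' := rfl
      rw [this, secw_append, h1, h2]
    obtain ⟨v', hv'⟩ := lam_spec (d := d) ⟨x, _, h3⟩
    have h4 : lam d p = x := hU p hp hp1 _ _ _ _ hv' h3
    have h5 : nx d p = sec p x := by
      unfold nx
      rw [h4]
    rw [List.length_cons, Function.iterate_succ_apply, h5]
    refine ih (sec p x) r (u' ++ [x]) (hQ p hp x) ?_ h1 ?_
    · intro h6
      apply hp1
      have h7 : secw (sec p x) (v ++ u') = p := h3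
      rw [h6, secw_one] at h7
      exact h7.symm
    · rw [secw_append, h2]
      rfl

theorem nx_word (d : X) (p : T X) (n : ℕ) : ∃ w : List X, w.length = n ∧
    (nx d)^[n] p = secw p w := by
  induction n with
  | zero => exact ⟨[], rfl, rfl⟩
  | succ n ih =>
    obtain ⟨w, h1, h2⟩ := ih
    refine ⟨w ++ [lam d ((nx d)^[n] p)], by simp [h1], ?_⟩
    rw [Function.iterate_succ_apply', secw_append, ← h2]
    rfl

theorem nx_mem {d : X} {Q : Set (T X)} (hQ : ∀ q ∈ Q, ∀ x, sec q x ∈ Q) {p : T X} (hp : p ∈ Q)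
    (n : ℕ) : (nx d)^[n] p ∈ Q := by
  induction n with
  | zero => exact hp
  | succ n ih =>
    rw [Function.iterate_succ_apply']
    exact hQ _ ih _

theorem nx_facts {d : X} {p : T X} (hp1 : p ≠ 1) {l : ℕ} (hl : 0 < l)
    (hpl : (nx d)^[l] p = p) (n : ℕ) :
    (nx d)^[n] p ≠ 1 ∧ ∃ x, ∃ v, secw ((nx d)^[n] p) (x :: v) = (nx d)^[n] p := by
  have h1 : (nx d)^[l * (n + 1)] p = p := by
    rw [Function.iterate_mul]
    exact Function.iterate_fixed hpl _
  have h2 : n + 1 ≤ l * (n + 1) := Nat.le_mul_of_pos_left _ hl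
  obtain ⟨k, hk⟩ : ∃ k, l * (n + 1) = (k + 1) + n := ⟨l * (n + 1) - n - 1, by omega⟩
  rw [hk, Function.iterate_add_apply] at h1
  obtain ⟨w, hw1, hw2⟩ := nx_word d ((nx d)^[n] p) (k + 1)
  rw [h1] at hw2
  obtain ⟨w', hw1', hw2'⟩ := nx_word d p n
  constructor
  · intro h
    rw [h, secw_one] at hw2
    exact hp1 hw2
  · cases w with
    | nil => simp at hw1
    | cons x v =>
      refine ⟨x, v ++ w', ?_⟩
      have h3 : x :: (v ++ w') = (x :: v) ++ w' := rfl
      rw [h3, secw_append, ← hw2, ← hw2']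

theorem al_nx (d : X) (p : T X) (n : ℕ) :
    al (fun n => lam d ((nx d)^[n] p)) p n = (nx d)^[n] p := by
  induction n with
  | zero => rfl
  | succ n ih =>
    rw [al, ih, Function.iterate_succ_apply']
    rfl

/-- reachable states -/
def Rs (q : T X) : Set (T X) := {h | ∃ v, h = secw q v}

theorem Rs_sub (q : T X) (v : List X) : Rs (secw q v) ⊆ Rs q := by
  rintro _ ⟨w, rfl⟩
  exact ⟨v ++ w, (secw_append q v w).symm⟩

theorem Rs_subQ {Q : Set (T X)} (hQ : ∀ q ∈ Q, ∀ x, sec q x ∈ Q) {q : T X} (hq : q ∈ Q) :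
    Rs q ⊆ Q := by
  rintro _ ⟨v, rfl⟩
  induction v generalizing q with
  | nil => exact hq
  | cons x v ih => exact ih (hQ q hq x)

theorem Rs_lt {Q : Set (T X)} (hfin : Q.Finite) (hQ : ∀ q ∈ Q, ∀ x, sec q x ∈ Q) {q : T X}
    (hq : q ∈ Q) (w : List X) (y : X) (h : ∀ v, secw (secw q w) (y :: v) ≠ secw q w) :
    (Rs (sec (secw q w) y)).ncard < (Rs q).ncard := by
  apply Set.ncard_lt_ncard _ (hfin.subset (Rs_subQ hQ hq))
  rw [Set.ssubset_iff_of_subset]
  · refine ⟨secw q w, ⟨w, rfl⟩, ?_⟩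
    rintro ⟨v, hv⟩
    exact h v hv.symm
  · have h1 : sec (secw q w) y = secw q (w ++ [y]) := by
      rw [secw_append]
      rfl
    rw [h1]
    exact Rs_sub q _

/-! ### the elements that move rays -/

/-- the automorphism that moves `d d d ...` to `ξ` -/
noncomputable def c (d : X) (ξ : ℕ → X) : T X := tau (psi d 0) (cc d 0 ξ)

theorem root_c (d : X) (ξ : ℕ → X) : root (c d ξ) = Equiv.swap d (ξ 0) := by
  unfold c
  rw [root_tau, psi_cc]
  rfl

theorem sec_c_d (d : X) (ξ : ℕ → X) : sec (c d ξ) d = c d (sh ξ) := by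
  unfold c
  rw [sec_tau, psi_cc]
  show tau _ (if d = d then _ else _) = _
  rw [if_pos rfl]

theorem sec_c_off (d : X) (ξ : ℕ → X) {x : X} (hx : x ≠ d) : sec (c d ξ) x = 1 := by
  unfold c
  rw [sec_tau, psi_cc]
  show tau _ (if x = d then _ else _) = _
  rw [if_neg hx, map_one]

/-- the shift by `n` -/
def shn (n : ℕ) (ξ : ℕ → X) : ℕ → X := fun m => ξ (m + n)

theorem shn_zero (ξ : ℕ → X) : shn 0 ξ = ξ := rfl

theorem sh_shn (n : ℕ) (ξ : ℕ → X) : sh (shn n ξ) = shn (n + 1) ξ := by
  funext m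
  show ξ (m + 1 + n) = ξ (m + (n + 1))
  congr 1
  omega

theorem shn_zero_apply (n : ℕ) (ξ : ℕ → X) : shn n ξ 0 = ξ n := by
  show ξ (0 + n) = ξ n
  rw [zero_add]

theorem al_c (d : X) (ξ : ℕ → X) (n : ℕ) : al (dray d) (c d ξ) n = c d (shn n ξ) := by
  induction n with
  | zero => rfl
  | succ n ih =>
    rw [al, ih]
    show sec (c d (shn n ξ)) d = _
    rw [sec_c_d, sh_shn]

theorem c_mem (d : X) {P : ℕ} {ξ : ℕ → X} (hξ : ∀ n, ξ (n + P) = ξ n) : c d ξ ∈ M0 X P := by
  apply Subgroup.subset_closure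
  refine ⟨dray d, fun _ => rfl, ?_, ?_⟩
  · rw [al_c]
    congr 1
    funext m
    exact hξ m
  · intro n x hx
    rw [al_c, isDep_zero]
    exact sec_c_off d _ hx

theorem step (d : X) (h : T X) (ξ η : ℕ → X) (h0 : root h (ξ 0) = η 0) :
    root ((c d η)⁻¹ * h * c d ξ) d = d ∧
    sec ((c d η)⁻¹ * h * c d ξ) d = (c d (sh η))⁻¹ * sec h (ξ 0) * c d (sh ξ) ∧
    ∀ x, x ≠ d → ∃ y, y ≠ ξ 0 ∧ sec ((c d η)⁻¹ * h * c d ξ) x = sec h y := by
  refine ⟨?_, ?_, ?_⟩
  · rw [root_mul, root_mul, root_inv, root_c, root_c, Equiv.swap_inv, Equiv.Perm.mul_apply,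
      Equiv.Perm.mul_apply, Equiv.swap_apply_left, h0, Equiv.swap_apply_right]
  · rw [sec_mul, sec_mul, sec_inv, root_c, root_c, Equiv.swap_inv, Equiv.swap_apply_left, h0,
      Equiv.swap_apply_right, sec_c_d, sec_c_d]
  · intro x hx
    refine ⟨Equiv.swap d (ξ 0) x, ?_, ?_⟩
    · intro h1
      apply hx
      rw [Equiv.swap_apply_eq_iff, Equiv.swap_apply_right] at h1
      exact h1
    · rw [sec_mul, sec_mul, sec_inv, root_c, root_c, Equiv.swap_inv, sec_c_off d ξ hx, mul_one]
      have h1 : Equiv.swap d (η 0) (root h (Equiv.swap d (ξ 0) x)) ≠ d := by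
        intro h2
        rw [Equiv.swap_apply_eq_iff, Equiv.swap_apply_left, ← h0] at h2
        have h3 := (root h).injective h2
        rw [Equiv.swap_apply_eq_iff, Equiv.swap_apply_right] at h3
        exact hx h3
      rw [sec_c_off d η h1, inv_one, one_mul]

/-! ### the induction -/

theorem Mx_mono (hMX : S_MX) {d : X} {P : ℕ} (hP : 0 < P) {s s' : ℕ} (h : s ≤ s') :
    Mx d P s ≤ Mx d P s' := by
  induction s', h using Nat.le_induction with
  | base => exact le_rfl
  | succ n _ ih => exact ih.trans (hMX X d P hP n).2.2.1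

theorem bound (hMX : S_MX) {d : X} {P : ℕ} (hP : 0 < P) {Q : Set (T X)} (hfin : Q.Finite)
    (p : T X → Prop) (h : ∀ r ∈ Q, p r → ∃ s, r ∈ Mx d P s) :
    ∃ S, ∀ r ∈ Q, p r → r ∈ Mx d P (S + 1) := by
  have h1 : ∀ r, ∃ s, r ∈ Q → p r → r ∈ Mx d P s := by
    intro r
    by_cases hr : r ∈ Q
    · by_cases hp : p r
      · obtain ⟨s, hs⟩ := h r hr hp
        exact ⟨s, fun _ _ => hs⟩
      · exact ⟨0, fun _ h => absurd h hp⟩
    · exact ⟨0, fun h => absurd h hr⟩
  choose s hs using h1
  obtain ⟨S, hS⟩ := (hfin.image s).bddAbove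
  refine ⟨S, fun r hr hp => ?_⟩
  have h2 : s r ≤ S := hS ⟨r, hr, rfl⟩
  exact Mx_mono hMX hP (by omega) (hs r hr hp)

theorem main (hMX : S_MX) (d : X) {P : ℕ} (hP : 0 < P) {Q : Set (T X)} (hfin : Q.Finite)
    (hQ : ∀ q ∈ Q, ∀ x, sec q x ∈ Q) (hU : UQ Q) (hPQ : P = Q.ncard.factorial) :
    ∀ (n : ℕ), ∀ q ∈ Q, (Rs q).ncard = n → ∃ s, q ∈ Mx d P s := by
  intro n
  induction n using Nat.strong_induction_on with
  | _ n ih =>
    intro q hq hn
    obtain ⟨S, hS⟩ := bound hMX hP hfin (fun r => (Rs r).ncard < n)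
      (fun r hr h => ih _ h r hr rfl)
    by_cases hq1 : q = 1
    · exact ⟨0, by rw [hq1]; exact one_mem _⟩
    by_cases hrec : ∃ x, ∃ v, secw q (x :: v) = q
    · -- the recurrent case
      obtain ⟨x, v, hxv⟩ := hrec
      have hper : (nx d)^[(x :: v).length] q = q :=
        iter_nx d Q hQ hU (x :: v) q q [] hq hq1 hxv rfl
      have hpos : 0 < (x :: v).length := by simp
      have hPt : Function.IsPeriodicPt (nx d) (x :: v).length q := hper
      have hmin : 0 < Function.minimalPeriod (nx d) q := hPt.minimalPeriod_pos hpos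
      have hle : Function.minimalPeriod (nx d) q ≤ Q.ncard := by
        have h1 := Function.iterate_injOn_Iio_minimalPeriod (f := nx d) (x := q)
        have h2 : ((fun k => (nx d)^[k] q) '' Set.Iio (Function.minimalPeriod (nx d) q)).ncard =
            Function.minimalPeriod (nx d) q := by
          rw [Set.ncard_image_of_injOn h1, Set.ncard_eq_toFinset_card']
          simp
        rw [← h2]
        apply Set.ncard_le_ncard _ hfin
        rintro _ ⟨k, _, rfl⟩
        exact nx_mem hQ hq k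
      have hdvd : Function.minimalPeriod (nx d) q ∣ P := by
        rw [hPQ]
        exact Nat.dvd_factorial hmin hle
      have hP' : (nx d)^[P] q = q := Function.isPeriodicPt_iff_minimalPeriod_dvd.2 hdvd
      set ξ : ℕ → X := fun n => lam d ((nx d)^[n] q) with hξ
      have hal : ∀ n, al ξ q n = (nx d)^[n] q := al_nx d q
      have halP : ∀ n, al ξ q (n + P) = al ξ q n := by
        intro n
        rw [hal, hal, Function.iterate_add_apply, hP']
      have hξP : ∀ n, ξ (n + P) = ξ n := by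
        intro n
        show lam d ((nx d)^[n + P] q) = lam d ((nx d)^[n] q)
        rw [Function.iterate_add_apply, hP']
      set η : ℕ → X := fun n => root (al ξ q n) (ξ n) with hη
      have hηP : ∀ n, η (n + P) = η n := by
        intro n
        show root (al ξ q (n + P)) (ξ (n + P)) = root (al ξ q n) (ξ n)
        rw [halP, hξP]
      -- the sections off the ray
      have hoff : ∀ n y, y ≠ ξ n → sec (al ξ q n) y ∈ Mx d P (S + 1) := by
        intro m y hy
        obtain ⟨h1, h2⟩ := nx_facts hq1 hpos hper m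
        obtain ⟨w, hw1, hw2⟩ := nx_word d q m
        have hmQ : (nx d)^[m] q ∈ Q := nx_mem hQ hq m
        obtain ⟨v', hv'⟩ := lam_spec (d := d) h2
        rw [hal]
        apply hS _ (hQ _ hmQ y)
        rw [← hn]
        show (Rs (sec ((nx d)^[m] q) y)).ncard < (Rs q).ncard
        rw [hw2]
        apply Rs_lt hfin hQ hq
        intro u hu
        rw [← hw2] at hu
        exact hy (hU _ hmQ h1 _ _ _ _ hu hv')
      set b : T X := (c d η)⁻¹ * q * c d ξ with hb
      have halb : ∀ n, al (dray d) b n =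
          (c d (shn n η))⁻¹ * al ξ q n * c d (shn n ξ) := by
        intro m
        induction m with
        | zero => rfl
        | succ m ihm =>
          rw [al, ihm]
          show sec _ d = _
          rw [(step d (al ξ q m) (shn m ξ) (shn m η) (by
            rw [shn_zero_apply, shn_zero_apply])).2.1, sh_shn, sh_shn, shn_zero_apply, al]
      have hbB : b ∈ Bd d P (Mx d P (S + 1)) := by
        refine ⟨?_, ?_, ?_⟩
        · intro m
          rw [halb]
          exact (step d (al ξ q m) (shn m ξ) (shn m η) (by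
            rw [shn_zero_apply, shn_zero_apply])).1
        · rw [halb]
          have h1 : shn P η = η := funext hηP
          have h2 : shn P ξ = ξ := funext hξP
          rw [h1, h2, hal, hP']
        · intro m x hx
          rw [halb]
          obtain ⟨y, hy, hy'⟩ := (step d (al ξ q m) (shn m ξ) (shn m η) (by
            rw [shn_zero_apply, shn_zero_apply])).2.2 x hx
          rw [hy']
          rw [shn_zero_apply] at hy
          exact hoff m y hy
      have hc : ∀ ζ : ℕ → X, (∀ n, ζ (n + P) = ζ n) → c d ζ ∈ Mx d P (S + 1) := by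
        intro ζ hζ
        have h1 : c d ζ ∈ Mx d P 1 := c_mem d hζ
        exact Mx_mono hMX hP (by omega) h1
      have hM := hMX X d P hP (S + 1)
      refine ⟨S + 2, ?_⟩
      have hqb : q = c d η * b * (c d ξ)⁻¹ := by
        rw [hb]
        group
      rw [hqb]
      exact mul_mem (mul_mem (hM.2.2.1 (hc η hηP)) (hM.2.2.2.1 hbB))
        (inv_mem (hM.2.2.1 (hc ξ hξP)))
    · -- the transient case
      push Not at hrec
      refine ⟨S + 2, ?_⟩
      show ∀ x, sec q x ∈ Mx d P (S + 1) ⊔ Bd d P (Mx d P (S + 1))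
      intro x
      apply Subgroup.mem_sup_left
      apply hS _ (hQ _ hq x)
      rw [← hn]
      exact Rs_lt hfin hQ hq [] x (hrec x)

theorem t_au2 : S_AU2 := by
  intro hMX _ X _ d g hfin hU
  set Q : Set (T X) := {h : T X | ∃ v, h = secw g v} with hQ
  have hQ' : ∀ q ∈ Q, ∀ x, sec q x ∈ Q := by
    rintro _ ⟨v, rfl⟩ x
    refine ⟨v ++ [x], ?_⟩
    rw [secw_append]
    rfl
  have hUQ : UQ Q := by
    rintro _ ⟨u, rfl⟩ h1 x y v w hx hy
    by_contra hne
    exact hU u x y v w h1 hne hx hy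
  have hP : 0 < Q.ncard.factorial := Nat.factorial_pos _
  obtain ⟨s, hs⟩ := main hMX d hP hfin hQ' hUQ rfl _ g ⟨[], rfl⟩ rfl
  exact ⟨_, s, hP, hs⟩

end Pool.Agent.Y73.PA
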